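import Pool.Agent.Q257.C6.Final

/-!
# `C₆`-saturated graphs without four-cycles

Let `F` be a field with `q = 2^(2e+1)` elements and `τ` its automorphism with `τ (τ x) = x ^ 2`. The
graph on `F ^ 3` in which `(a, b, c)` and `(a', b', c')` are adjacent iff `b + c' = a τ(a')` and
`c + b' = τ(a) a'` has neither four-cycles nor six-cycles, and two vertices that are not adjacent
are joined by about `q ^ 2` paths of length five, whose interior first coordinates are spread out.
A colouring argument gives a set `A` of at most `q / 64` first coordinates which contains the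
interior of such a path for every pair. So every vertex set that contains all vertices with first
coordinate in `A` induces a `C₆`-saturated graph without four-cycles, and these sets have all sizes
from `(q / 4) ^ 3` to `q ^ 3`.
-/

namespace Pool.Agent.Results.MP_7874c9_co.FourCycleFree

/-- `G` is `H`-saturated: it contains no copy of `H`, and adding any missing edge gives a copy. -/
def Saturated {V W : Type} (H : SimpleGraph W) (G : SimpleGraph V) : Prop :=
  H.Free G ∧ ∀ u v : V, u ≠ v → ¬ G.Adj u v → H.IsContained (G ⊔ SimpleGraph.edge u v)

/-- For every sufficiently large `n` there is a `C₆`-saturated graph on `n` vertices that contains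
no four-cycle, that is, `sat(n, C₄, C₆) = 0`. -/
theorem result : ∃ n₀ : ℕ, ∀ n ≥ n₀, ∃ G : SimpleGraph (Fin n),
    Saturated (SimpleGraph.cycleGraph 6) G ∧ (SimpleGraph.cycleGraph 4).Free G := by
  obtain ⟨n₀, h⟩ := Pool.Agent.Q257.C6.main
  refine ⟨n₀, fun n hn => ?_⟩
  obtain ⟨G, h1, h2, h3⟩ := h n hn
  exact ⟨G, ⟨h2, h3⟩, h1⟩

end Pool.Agent.Results.MP_7874c9_co.FourCycleFree
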